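import Pool.Agent.T6.H47.CL13

set_option autoImplicit false

/-!
The limit law of the coalescence time for the Collatz map.

The trajectories of `n` and `3 ^ i n + r` under the shortcut map `T` coalesce for almost all `n`.
The time they need, divided by `i ^ 2`, has a limit law as `i` tends to infinity, uniformly for
`log |r| = o(i ^ 2)`: the density of the `n` for which the two trajectories are still apart at time
`t` is `erf (i / √t) + o(1)`, uniformly in `t`. That is, the coalescence time is distributed like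
the first time at which a Brownian motion of variance `1 / 2` reaches the distance `i`.

For sets invariant under `T`, such as the set of the integers whose trajectory reaches `1`, it
follows that the proportion of the `n ≤ N` for which exactly one of `n` and `3 ^ i n + r` is in the
set is at most `erf (i / √(log₂ N)) + o(1)`.
-/

namespace Pool.Agent.Results.MP_d02c56_nt.CoalescenceLaw

open Finset

/-- The `3x+1` map in its shortcut form, on all integers. -/
def T (x : ℤ) : ℤ := if x % 2 = 0 then x / 2 else (3 * x + 1) / 2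

/-- The error function. -/
noncomputable def erf (x : ℝ) : ℝ := 2 / √Real.pi * ∫ y in (0 : ℝ)..x, Real.exp (-y ^ 2)

open Classical in
/-- **The law of the coalescence time.** -/
theorem result : ∀ ε : ℝ, 0 < ε → ∃ η : ℝ, 0 < η ∧ ∃ I : ℕ, ∀ i : ℕ, I ≤ i → ∀ r : ℤ,
    |(r : ℝ)| ≤ Real.exp (η * (i : ℝ) ^ 2) →
      (∀ t : ℕ, 1 ≤ t → ∃ D : ℝ, |D - erf (i / √t)| ≤ ε ∧ ∀ s : ℤ, s = 1 ∨ s = -1 → ∀ N : ℕ,
        |(#{n ∈ Icc 1 N | T^[t] (s * ((n : ℕ) : ℤ)) ≠ T^[t] (3 ^ i * (s * ((n : ℕ) : ℤ)) + r)} : ℝ)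
          - D * N| ≤ 2 ^ (t + 1)) ∧
      (∀ S : Set ℤ, (∀ x : ℤ, T x ∈ S ↔ x ∈ S) → ∀ s : ℤ, s = 1 ∨ s = -1 → ∀ N : ℕ, 2 ≤ N →
        (#{n ∈ Icc 1 N | ¬ (s * ((n : ℕ) : ℤ) ∈ S ↔ 3 ^ i * (s * ((n : ℕ) : ℤ)) + r ∈ S)} : ℝ) ≤
          (erf (i / √(Real.logb 2 N)) + ε) * N) := by
  intro ε hε
  obtain ⟨η, hη, I, h⟩ := Pool.Agent.T6.H47.CL.law_all hε
  refine ⟨η, hη, I, fun i hi r hr => ?_⟩
  obtain ⟨h1, h2⟩ := h i hi r hr
  refine ⟨fun t ht => ?_, fun S hS s hs N hN => ?_⟩
  · obtain ⟨D, hD, hD2⟩ := h1 t ht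
    rw [Pool.Agent.T6.H47.CL.Er_eq] at hD
    exact ⟨D, hD, fun s hs N => hD2 s hs N⟩
  · have := h2 S hS s hs N hN
    rw [Pool.Agent.T6.H47.CL.Er_eq] at this
    exact this

end Pool.Agent.Results.MP_d02c56_nt.CoalescenceLaw
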