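import Pool.Agent.T6.H47.BV10

set_option autoImplicit false

/-!
The divisor problem of Titchmarsh type for the sets invariant under the Collatz map.

The sum of the number of divisors `τ n` over the `n ≤ N` such that `n + b` (or `- (n + b)`) belongs
to an invariant set of natural density `δ` is `δ N log N`, with an error smaller by a power of the
logarithm, uniformly in the invariant set and in the shift `b ≤ N`. More generally `τ n - log N` is
orthogonal to all shifts of all functions that have the same value at any two integers whose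
trajectories meet at the same time. So the question is equivalent to a statement on sums of the
divisor function over the shifts of the set of the exceptions.
-/

namespace Pool.Agent.Results.MP_d02c56_nt.DivisorSums

open Filter Topology Finset

/-- The Collatz map on the integers. -/
def C (x : ℤ) : ℤ := if x % 2 = 0 then x / 2 else 3 * x + 1

/-- The shortcut map. -/
def T (x : ℤ) : ℤ := if x % 2 = 0 then x / 2 else (3 * x + 1) / 2

/-- `S` is invariant under the Collatz map and its inverse. -/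
def Invariant (S : Set ℤ) : Prop := ∀ x : ℤ, x ∈ S ↔ C x ∈ S

/-- Among the integers of sign `s` the set `S` has natural density `δ`. -/
def HasDensity (s : ℤ) (S : Set ℤ) (δ : ℝ) : Prop :=
  Tendsto (fun N : ℕ => ({n : ℤ | 0 < s * n ∧ s * n ≤ N ∧ n ∈ S}.ncard : ℝ) / N) atTop (𝓝 δ)

/-- A function on the integers with values in `[-1, 1]` that has the same value at any two integers
whose trajectories under the shortcut map are at some time at the same point. -/
def Synchronous (F : ℤ → ℝ) : Prop :=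
  (∀ x, |F x| ≤ 1) ∧ ∀ (j : ℕ) (x y : ℤ), T^[j] x = T^[j] y → F x = F y

/-- The sum of the number of divisors of `n` over the `n ≤ N` with `s (n + b) ∈ S`. -/
noncomputable def divSum (s : ℤ) (S : Set ℤ) (b N : ℕ) : ℝ :=
  ∑ n ∈ Icc 1 N, S.indicator (fun _ => (n.divisors.card : ℝ)) (s * (n + b))

/-- The union of the five known cycles. -/
def Known : Finset ℤ := {1, 4, 2, -1, -2, -5, -14, -7, -20, -10, -17, -50, -25, -74, -37, -110,
  -55, -164, -82, -41, -122, -61, -182, -91, -272, -136, -68, -34, 0}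

/-- The trajectory of `x` reaches one of the five known cycles. -/
def Reaches (x : ℤ) : Prop := ∃ k : ℕ, C^[k] x ∈ Known

theorem known_closed : ∀ x ∈ Known, C x ∈ Known := by decide

theorem reaches_inv : Invariant {x | Reaches x} := by
  intro x
  constructor
  · rintro ⟨k, hk⟩
    cases k with
    | zero => exact ⟨0, known_closed x hk⟩
    | succ k => exact ⟨k, by rw [Function.iterate_succ_apply] at hk; exact hk⟩
  · rintro ⟨k, hk⟩
    exact ⟨k + 1, by rw [Function.iterate_succ_apply]; exact hk⟩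

open Pool.Agent.T6.H47.BV Pool.Agent.H499R2.ND Pool.Agent.H499R2.CO

theorem inv_of {S : Set ℤ} (hS : Invariant S) : Inv 1 S := by
  intro x
  have e : Td 1 x = C x ∨ Td 1 x = C (C x) := by
    unfold Td C
    by_cases h : x % 2 = 0
    · left; simp [h]
    · right
      have h2 : (3 * x + 1) % 2 = 0 := by omega
      simp [h, h2]
  rcases e with h | h
  · rw [h]; exact hS x
  · rw [h]; exact (hS x).trans (hS (C x))

theorem T_eq : T = Tz 1 := rfl

theorem divSum_eq (s : ℤ) (S : Set ℤ) (b N : ℕ) :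
    divSum s S b N = ∑ n ∈ Icc 1 N, (n.divisors.card : ℝ) * ind S (s * ((n + b : ℕ) : ℤ)) := by
  unfold divSum
  apply sum_congr rfl
  intro n _
  have e : s * ((n + b : ℕ) : ℤ) = s * ((n : ℤ) + b) := by push_cast; ring
  rw [e]
  unfold ind
  by_cases h : s * ((n : ℤ) + b) ∈ S
  · rw [Set.indicator_of_mem h, if_pos h, mul_one]
  · rw [Set.indicator_of_notMem h, if_neg h, mul_zero]

theorem sync_part : ∃ K : ℝ, ∀ s : ℤ, (s = 1 ∨ s = -1) → ∀ F : ℤ → ℝ, Synchronous F → ∀ N : ℕ, 2 ≤ N →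
    ∀ b : ℕ, b ≤ N → |∑ n ∈ Icc 1 N, (n.divisors.card : ℝ) * F (s * (n + b)) -
      Real.log N * ∑ n ∈ Icc 1 N, F (s * (n + b))| ≤ K * (N * Real.log N ^ (4 / 5 : ℝ)) := by
  obtain ⟨C₂, hC₂, h₂⟩ := divisor_sync
  refine ⟨C₂, fun s hs F hF N hN => ?_⟩
  have hsync : Sync F := by
    intro j x y h
    rw [← T_eq] at h
    exact hF.2 j x y h
  intro b hb
  have h3 := h₂ s hs F hF.1 hsync N hN b hb
  have e : ∀ n : ℕ, s * ((n + b : ℕ) : ℤ) = s * ((n : ℤ) + b) := by intro n; push_cast; ring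
  simp only [e] at h3
  exact h3

theorem inv_part : ∃ K : ℝ, ∀ s : ℤ, (s = 1 ∨ s = -1) → ∀ S : Set ℤ, Invariant S → ∃ δ : ℝ, HasDensity s S δ ∧
    ∀ N : ℕ, 2 ≤ N → ∀ b : ℕ, b ≤ N →
      |divSum s S b N - δ * (N * Real.log N)| ≤ K * (N * Real.log N ^ (29 / 30 : ℝ)) := by
  obtain ⟨C₃, hC₃, h₃⟩ := divisor_inv
  refine ⟨C₃, fun s hs S hS => ?_⟩
  have hSi := inv_of hS
  obtain ⟨δ, hδ0, hδ1, hHD⟩ := dens_side odd_one isCoprime_one_left hs hSi
  refine ⟨δ, HD_ncard hs hHD, fun N hN b hb => ?_⟩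
  rw [divSum_eq]
  exact h₃ s hs S hSi δ hHD N hN b hb

/-- **Sums of the divisor function** (1) `τ n - log N` is orthogonal to the shifts of synchronous
functions; (2) sums of `τ` over the shifts of invariant sets; (3) a sufficient condition, and (4) the
equivalence with the question. -/
theorem result :
    (∃ K : ℝ, ∀ s : ℤ, (s = 1 ∨ s = -1) → ∀ F : ℤ → ℝ, Synchronous F → ∀ N : ℕ, 2 ≤ N →
      ∀ b : ℕ, b ≤ N → |∑ n ∈ Icc 1 N, (n.divisors.card : ℝ) * F (s * (n + b)) -
        Real.log N * ∑ n ∈ Icc 1 N, F (s * (n + b))| ≤ K * (N * Real.log N ^ (4 / 5 : ℝ))) ∧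
    (∃ K : ℝ, ∀ s : ℤ, (s = 1 ∨ s = -1) → ∀ S : Set ℤ, Invariant S → ∃ δ : ℝ, HasDensity s S δ ∧
      ∀ N : ℕ, 2 ≤ N → ∀ b : ℕ, b ≤ N →
        |divSum s S b N - δ * (N * Real.log N)| ≤ K * (N * Real.log N ^ (29 / 30 : ℝ))) ∧
    (∀ s : ℤ, (s = 1 ∨ s = -1) → ∀ S : Set ℤ, Invariant S →
      (∀ ε : ℝ, 0 < ε → ∀ M : ℕ, ∃ N : ℕ, M ≤ N ∧ ∃ b : ℕ, b ≤ N ∧ divSum s Sᶜ b N ≤ ε * (N * Real.log N)) →
        ∀ x : ℤ, 0 < s * x → x ∈ S) ∧
    ((∀ x : ℤ, Reaches x) ↔ ∀ s : ℤ, (s = 1 ∨ s = -1) → ∀ ε : ℝ, 0 < ε → ∀ M : ℕ, ∃ N : ℕ, M ≤ N ∧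
      ∃ b : ℕ, b ≤ N ∧ divSum s {x | Reaches x}ᶜ b N ≤ ε * (N * Real.log N)) := by
  have hB : ∀ s : ℤ, (s = 1 ∨ s = -1) → ∀ S : Set ℤ, Invariant S →
      (∀ ε : ℝ, 0 < ε → ∀ M : ℕ, ∃ N : ℕ, M ≤ N ∧ ∃ b : ℕ, b ≤ N ∧ divSum s Sᶜ b N ≤ ε * (N * Real.log N)) →
        ∀ x : ℤ, 0 < s * x → x ∈ S := by
    intro s hs S hS h
    apply suff_divisor hs (inv_of hS)
    intro ε hε M
    obtain ⟨N, hN, b, hb, h1⟩ := h ε hε M
    refine ⟨N, hN, b, hb, ?_⟩
    rw [divSum_eq] at h1
    simp only [ind_compl] at h1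
    exact h1
  have hall : (∀ s : ℤ, (s = 1 ∨ s = -1) → ∀ x : ℤ, 0 < s * x → Reaches x) → ∀ x : ℤ, Reaches x := by
    intro h x
    rcases lt_trichotomy x 0 with hx | hx | hx
    · exact h (-1) (Or.inr rfl) x (by omega)
    · rw [hx]; exact ⟨0, by decide⟩
    · exact h 1 (Or.inl rfl) x (by omega)
  refine ⟨sync_part, inv_part, fun s hs S hS => hB s hs S hS, ⟨fun h s _ ε hε M => ?_, fun h => ?_⟩⟩
  · refine ⟨max M 1, le_max_left _ _, 0, Nat.zero_le _, ?_⟩
    have e : divSum s {x | Reaches x}ᶜ 0 (max M 1) = 0 := by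
      unfold divSum
      apply sum_eq_zero
      intro n _
      apply Set.indicator_of_notMem
      intro h4
      exact h4 (h _)
    rw [e]
    have h1 : 0 ≤ Real.log ((max M 1 : ℕ) : ℝ) := Real.log_nonneg (by exact_mod_cast le_max_right _ _)
    positivity
  · exact hall fun s hs x hx => hB s hs _ reaches_inv (h s hs) x hx

end Pool.Agent.Results.MP_d02c56_nt.DivisorSums
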