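import Pool.Agent.T6.H47.BV10

set_option autoImplicit false

/-!
A theorem of Bombieri-Vinogradov type for the Collatz map.

Functions that have the same value at any two integers whose trajectories meet at the same time, and
in particular the indicator functions of the sets invariant under the Collatz map, have level of
distribution 1/2: they are equidistributed in the residue classes to almost all moduli up to the
square root of the size of the integers, with arbitrary classes and arbitrary cut-offs, uniformly in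
the function. So the question is equivalent to a statement on one class for each modulus of a set of
positive proportion of the moduli in a dyadic interval.
-/

namespace Pool.Agent.Results.MP_d02c56_nt.LevelOneHalf

open Filter Topology Finset

/-- The Collatz map on the integers. -/
def C (x : ℤ) : ℤ := if x % 2 = 0 then x / 2 else 3 * x + 1

/-- The shortcut map. -/
def T (x : ℤ) : ℤ := if x % 2 = 0 then x / 2 else (3 * x + 1) / 2

/-- `S` is invariant under the Collatz map and its inverse. -/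
def Invariant (S : Set ℤ) : Prop := ∀ x : ℤ, x ∈ S ↔ C x ∈ S

/-- Among the integers of sign `s` the set `S` has natural density `δ`. -/
def HasDensity (s : ℤ) (S : Set ℤ) (δ : ℝ) : Prop :=
  Tendsto (fun N : ℕ => ({n : ℤ | 0 < s * n ∧ s * n ≤ N ∧ n ∈ S}.ncard : ℝ) / N) atTop (𝓝 δ)

/-- A function on the integers with values in `[-1, 1]` that has the same value at any two integers
whose trajectories under the shortcut map are at some time at the same point. -/
def Synchronous (F : ℤ → ℝ) : Prop :=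
  (∀ x, |F x| ≤ 1) ∧ ∀ (j : ℕ) (x y : ℤ), T^[j] x = T^[j] y → F x = F y

/-- The sum of `F (s n)` over the `n ≡ a` mod `q` with `1 ≤ n ≤ y`. -/
noncomputable def classSum (s : ℤ) (F : ℤ → ℝ) (y q : ℕ) (a : ℤ) : ℝ :=
  ∑ n ∈ (Icc 1 y).filter (fun n : ℕ => (n : ℤ) ≡ a [ZMOD q]), F (s * n)

/-- The number of the `n ≡ a` mod `q` with `1 ≤ n ≤ y` and `s n ∈ S`. -/
noncomputable def count (s : ℤ) (S : Set ℤ) (y q : ℕ) (a : ℤ) : ℕ :=
  {n : ℕ | 1 ≤ n ∧ n ≤ y ∧ (n : ℤ) ≡ a [ZMOD q] ∧ s * n ∈ S}.ncard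

/-- There are arbitrarily large `N` such that for at least `κ Q` of the moduli `q` in some interval
`(Q, 2 Q]` with `Q ≤ ε √N` some class modulo `q` has at most `ε N / q` elements `n ≤ N` with
`s n ∉ S`. -/
def Dense (s : ℤ) (S : Set ℤ) (κ ε : ℝ) : Prop :=
  ∀ M : ℕ, ∃ N : ℕ, M ≤ N ∧ ∃ Q : ℕ, 1 ≤ Q ∧ (Q : ℝ) ≤ ε * √N ∧ ∃ P ⊆ Ioc Q (2 * Q), κ * Q ≤ #P ∧
    ∃ a : ℕ → ℤ, ∀ q ∈ P, (count s Sᶜ N q (a q) : ℝ) ≤ ε * (N / q)

/-- The union of the five known cycles. -/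
def Known : Finset ℤ := {1, 4, 2, -1, -2, -5, -14, -7, -20, -10, -17, -50, -25, -74, -37, -110,
  -55, -164, -82, -41, -122, -61, -182, -91, -272, -136, -68, -34, 0}

/-- The trajectory of `x` reaches one of the five known cycles. -/
def Reaches (x : ℤ) : Prop := ∃ k : ℕ, C^[k] x ∈ Known

theorem known_closed : ∀ x ∈ Known, C x ∈ Known := by decide

theorem reaches_inv : Invariant {x | Reaches x} := by
  intro x
  constructor
  · rintro ⟨k, hk⟩
    cases k with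
    | zero => exact ⟨0, known_closed x hk⟩
    | succ k => exact ⟨k, by rw [Function.iterate_succ_apply] at hk; exact hk⟩
  · rintro ⟨k, hk⟩
    exact ⟨k + 1, by rw [Function.iterate_succ_apply]; exact hk⟩

open Pool.Agent.T6.H47.BV Pool.Agent.H499R2.ND Pool.Agent.H499R2.CO

theorem inv_of {S : Set ℤ} (hS : Invariant S) : Inv 1 S := by
  intro x
  have e : Td 1 x = C x ∨ Td 1 x = C (C x) := by
    unfold Td C
    by_cases h : x % 2 = 0
    · left; simp [h]
    · right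
      have h2 : (3 * x + 1) % 2 = 0 := by omega
      simp [h, h2]
  rcases e with h | h
  · rw [h]; exact hS x
  · rw [h]; exact (hS x).trans (hS (C x))

theorem T_eq : T = Tz 1 := rfl

theorem modEq_iff (n a : ℤ) (q : ℕ) : n ≡ a [ZMOD q] ↔ (q : ℤ) ∣ n - a := by
  rw [Int.modEq_comm, Int.modEq_iff_dvd]

theorem classSum_eq (s : ℤ) (F : ℤ → ℝ) (y q : ℕ) (a : ℤ) :
    classSum s F y q a = ∑ n ∈ Icc 1 y, F (s * n) * ci q a n := by
  unfold classSum ci
  rw [sum_filter]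
  apply sum_congr rfl
  intro n _
  simp only [modEq_iff]
  split_ifs <;> simp

theorem count_eq (s : ℤ) (S : Set ℤ) (y q : ℕ) (a : ℤ) :
    (count s S y q a : ℝ) = ∑ n ∈ Icc 1 y, ind S (s * (n : ℕ)) * ci q a n := by
  classical
  have h : {n : ℕ | 1 ≤ n ∧ n ≤ y ∧ (n : ℤ) ≡ a [ZMOD q] ∧ s * n ∈ S} =
      ((Icc 1 y).filter (fun n : ℕ => (n : ℤ) ≡ a [ZMOD q] ∧ s * n ∈ S) : Set ℕ) := by
    ext n
    rw [mem_coe, mem_filter, mem_Icc]
    simp only [Set.mem_ofPred_eq]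
    tauto
  unfold count
  rw [h, Set.ncard_coe_finset, card_filter]
  push_cast
  apply sum_congr rfl
  intro n _
  unfold ind ci
  by_cases h1 : (q : ℤ) ∣ (n : ℤ) - a
  · by_cases h2 : s * (n : ℤ) ∈ S
    · rw [if_pos ⟨(modEq_iff _ _ _).2 h1, h2⟩, if_pos h2, if_pos h1, mul_one]
    · rw [if_neg (fun h3 => h2 h3.2), if_neg h2, zero_mul]
  · rw [if_neg (fun h3 => h1 ((modEq_iff _ _ _).1 h3.1)), if_neg h1, mul_zero]

theorem sync_part : ∃ K : ℝ, ∀ s : ℤ, (s = 1 ∨ s = -1) → ∀ F : ℤ → ℝ, Synchronous F → ∀ N : ℕ, 2 ≤ N →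
    ∀ Q : ℕ, 1 ≤ Q → ∀ (a : ℕ → ℤ) (y : ℕ → ℕ), (∀ q, y q ≤ N) →
      ∑ q ∈ Ioc Q (2 * Q), |classSum s F (y q) q (a q) - (∑ n ∈ Icc 1 (y q), F (s * n)) / q| ≤
        K * (N / Real.log N ^ (1 / 5 : ℝ) + Q * √N) := by
  obtain ⟨C₁, hC₁, h₁⟩ := bv_sync
  refine ⟨C₁ + 4, fun s hs F hF N hN => ?_⟩
  have hsync : Sync F := by
    intro j x y h
    rw [← T_eq] at h
    exact hF.2 j x y h
  have hNr : (2 : ℝ) ≤ N := by exact_mod_cast hN
  have hL0 : 0 < Real.log N := Real.log_pos (by linarith)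
  · intro Q hQ a y hy
    have hQr : (1 : ℝ) ≤ Q := by exact_mod_cast hQ
    have h3 := h₁ s hs F hF.1 hsync N hN Q hQ a y hy
    have h4 : ∀ q ∈ Ioc Q (2 * Q), |classSum s F (y q) q (a q) - (∑ n ∈ Icc 1 (y q), F (s * n)) / q| ≤
        |disc (fun n : ℕ => F (s * n)) (y q) (a q) q| + 4 := by
      intro q hq
      rw [mem_Ioc] at hq
      have hq1 : (1 : ℝ) ≤ q := by exact_mod_cast (by omega : 1 ≤ q)
      have hinv : 1 / (q : ℝ) ≤ 1 := by rw [div_le_one (by linarith)]; exact hq1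
      have hinv0 : 0 ≤ 1 / (q : ℝ) := by positivity
      rw [classSum_eq, Icc_eq_range' (fun n : ℕ => F (s * n) * ci q (a q) n), Icc_eq_range' (fun n : ℕ => F (s * n))]
      have e : ∑ n ∈ range (y q), F (s * n) * ci q (a q) n + (F (s * (y q : ℕ)) * ci q (a q) (y q : ℕ) -
          F (s * (0 : ℕ)) * ci q (a q) (0 : ℕ)) -
          (∑ n ∈ range (y q), F (s * n) + (F (s * (y q : ℕ)) - F (s * (0 : ℕ)))) / q =
          disc (fun n : ℕ => F (s * n)) (y q) (a q) q + (F (s * (y q : ℕ)) * (ci q (a q) (y q : ℕ) - 1 / q) -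
            F (s * (0 : ℕ)) * (ci q (a q) (0 : ℕ) - 1 / q)) := by
        unfold disc
        ring
      rw [e]
      have h5 : ∀ n : ℕ, |F (s * n) * (ci q (a q) n - 1 / q)| ≤ 2 := by
        intro n
        rw [abs_mul]
        have h6 := ci_nonneg q (a q) n
        have h7 := ci_le_one q (a q) n
        have h8 : |ci q (a q) n - 1 / q| ≤ 2 := by
          rw [abs_le]
          constructor <;> linarith
        calc _ ≤ 1 * 2 := mul_le_mul (hF.1 _) h8 (abs_nonneg _) (by norm_num)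
          _ = 2 := by norm_num
      have h6 := h5 (y q)
      have h7 := h5 0
      calc _ ≤ |disc (fun n : ℕ => F (s * n)) (y q) (a q) q| + |F (s * (y q : ℕ)) * (ci q (a q) (y q : ℕ) - 1 / q) -
            F (s * (0 : ℕ)) * (ci q (a q) (0 : ℕ) - 1 / q)| := abs_add_le _ _
        _ ≤ |disc (fun n : ℕ => F (s * n)) (y q) (a q) q| + (2 + 2) := by
            gcongr
            exact (abs_sub _ _).trans (add_le_add h6 h7)
        _ = _ := by norm_num
    refine (sum_le_sum h4).trans ?_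
    rw [sum_add_distrib, sum_const, Nat.card_Ioc, show 2 * Q - Q = Q by omega, nsmul_eq_mul]
    have hsN1 : 1 ≤ √(N : ℝ) := Real.one_le_sqrt.2 (by linarith)
    have h6 : (Q : ℝ) ≤ Q * √N := le_mul_of_one_le_right (by linarith) hsN1
    have h7 : 0 ≤ (N : ℝ) / Real.log N ^ (1 / 5 : ℝ) := by positivity
    generalize (N : ℝ) / Real.log N ^ (1 / 5 : ℝ) = X at *
    linarith

theorem inv_part : ∃ K : ℝ, ∀ s : ℤ, (s = 1 ∨ s = -1) → ∀ S : Set ℤ, Invariant S → ∃ δ : ℝ, HasDensity s S δ ∧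
    ∀ N : ℕ, 2 ≤ N →
    ∀ Q : ℕ, 1 ≤ Q → ∀ (a : ℕ → ℤ) (y : ℕ → ℕ), (∀ q, y q ≤ N) →
      ∑ q ∈ Ioc Q (2 * Q), |(count s S (y q) q (a q) : ℝ) - δ * (y q / q)| ≤
        K * (N / Real.log N ^ (1 / 30 : ℝ) + Q * √N) := by
  obtain ⟨C₁, hC₁, h₁⟩ := dens_dyadic
  refine ⟨C₁ + 2, fun s hs S hS => ?_⟩
  have hSi := inv_of hS
  obtain ⟨δ, hδ0, hδ1, hHD, -, hdy⟩ := h₁ s hs S hSi
  refine ⟨δ, HD_ncard hs hHD, fun N hN => ?_⟩
  have hNr : (2 : ℝ) ≤ N := by exact_mod_cast hN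
  have hL0 : 0 < Real.log N := Real.log_pos (by linarith)
  have hdiff : ∀ (q : ℕ) (_ : 1 ≤ q) (a : ℤ) (y : ℕ), |((count s S y q a : ℝ) - δ * (y / q)) -
      WW (fun n : ℕ => ind S (s * n) - δ) q a y| ≤ 1 := by
    intro q hq a y
    have e : ((count s S y q a : ℝ) - δ * (y / q)) - WW (fun n : ℕ => ind S (s * n) - δ) q a y =
        δ * (∑ n ∈ Icc 1 y, ci q a n - y / q) := by
      rw [count_eq]
      unfold WW
      have : ∑ n ∈ Icc 1 y, (ind S (s * (n : ℕ)) - δ) * ci q a n =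
          ∑ n ∈ Icc 1 y, ind S (s * (n : ℕ)) * ci q a n - δ * ∑ n ∈ Icc 1 y, ci q a n := by
        rw [mul_sum, ← sum_sub_distrib]
        apply sum_congr rfl
        intro n _
        ring
      rw [this]
      ring
    rw [e, abs_mul, abs_of_nonneg hδ0]
    exact mul_le_one₀ hδ1 (abs_nonneg _) (ci_Icc hq a y)
  intro Q hQ a y hy
  · have hQr : (1 : ℝ) ≤ Q := by exact_mod_cast hQ
    have h4 := hdy N hN Q hQ a y hy
    have h5 : ∀ q ∈ Ioc Q (2 * Q), |(count s S (y q) q (a q) : ℝ) - δ * (y q / q)| ≤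
        |WW (fun n : ℕ => ind S (s * n) - δ) q (a q) (y q)| + 1 := by
      intro q hq
      rw [mem_Ioc] at hq
      have h6 := hdiff q (by omega) (a q) (y q)
      have h7 := abs_add_le (((count s S (y q) q (a q) : ℝ) - δ * (y q / q)) -
        WW (fun n : ℕ => ind S (s * n) - δ) q (a q) (y q)) (WW (fun n : ℕ => ind S (s * n) - δ) q (a q) (y q))
      rw [sub_add_cancel] at h7
      exact h7.trans (by rw [add_comm]; gcongr)
    refine (sum_le_sum h5).trans ?_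
    rw [sum_add_distrib, sum_const, Nat.card_Ioc, show 2 * Q - Q = Q by omega, nsmul_eq_mul, mul_one]
    have hsN1 : 1 ≤ √(N : ℝ) := Real.one_le_sqrt.2 (by linarith)
    have h6 : (Q : ℝ) ≤ Q * √N := le_mul_of_one_le_right (by linarith) hsN1
    have h7 : 0 ≤ (N : ℝ) / Real.log N ^ (1 / 30 : ℝ) := by positivity
    generalize (N : ℝ) / Real.log N ^ (1 / 30 : ℝ) = X at *
    linarith

/-- **Level of distribution 1/2** (1) for synchronous functions, uniformly in the function, the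
classes and the cut-offs; (2) for invariant sets, with the natural density; (3) a sufficient
condition, and (4) the equivalence with the question. -/
theorem result :
    (∃ K : ℝ, ∀ s : ℤ, (s = 1 ∨ s = -1) → ∀ F : ℤ → ℝ, Synchronous F → ∀ N : ℕ, 2 ≤ N →
      ∀ Q : ℕ, 1 ≤ Q → ∀ (a : ℕ → ℤ) (y : ℕ → ℕ), (∀ q, y q ≤ N) →
        ∑ q ∈ Ioc Q (2 * Q), |classSum s F (y q) q (a q) - (∑ n ∈ Icc 1 (y q), F (s * n)) / q| ≤
          K * (N / Real.log N ^ (1 / 5 : ℝ) + Q * √N)) ∧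
    (∃ K : ℝ, ∀ s : ℤ, (s = 1 ∨ s = -1) → ∀ S : Set ℤ, Invariant S → ∃ δ : ℝ, HasDensity s S δ ∧
      ∀ N : ℕ, 2 ≤ N → ∀ Q : ℕ, 1 ≤ Q → ∀ (a : ℕ → ℤ) (y : ℕ → ℕ), (∀ q, y q ≤ N) →
        ∑ q ∈ Ioc Q (2 * Q), |(count s S (y q) q (a q) : ℝ) - δ * (y q / q)| ≤
          K * (N / Real.log N ^ (1 / 30 : ℝ) + Q * √N)) ∧
    (∀ s : ℤ, (s = 1 ∨ s = -1) → ∀ S : Set ℤ, Invariant S →
      (∃ κ : ℝ, 0 < κ ∧ ∀ ε : ℝ, 0 < ε → Dense s S κ ε) → ∀ x : ℤ, 0 < s * x → x ∈ S) ∧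
    ((∀ x : ℤ, Reaches x) ↔ ∀ s : ℤ, (s = 1 ∨ s = -1) → ∃ κ : ℝ, 0 < κ ∧ ∀ ε : ℝ, 0 < ε →
      Dense s {x | Reaches x} κ ε) := by
  have hA : ∀ s : ℤ, (s = 1 ∨ s = -1) → ∀ S : Set ℤ, Invariant S →
      (∃ κ : ℝ, 0 < κ ∧ ∀ ε : ℝ, 0 < ε → Dense s S κ ε) → ∀ x : ℤ, 0 < s * x → x ∈ S := by
    intro s hs S hS ⟨κ, hκ, h⟩
    apply suff hs (inv_of hS) hκ
    intro ε hε M
    obtain ⟨N, hN, Q, hQ, hQN, P, hP, hcard, a, ha⟩ := h ε hε M
    refine ⟨N, hN, Q, hQ, hQN, P, hP, hcard, a, fun q hq => ?_⟩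
    have h1 := ha q hq
    rw [count_eq] at h1
    simp only [ind_compl] at h1
    exact h1
  have hall : (∀ s : ℤ, (s = 1 ∨ s = -1) → ∀ x : ℤ, 0 < s * x → Reaches x) → ∀ x : ℤ, Reaches x := by
    intro h x
    rcases lt_trichotomy x 0 with hx | hx | hx
    · exact h (-1) (Or.inr rfl) x (by omega)
    · rw [hx]; exact ⟨0, by decide⟩
    · exact h 1 (Or.inl rfl) x (by omega)
  refine ⟨sync_part, inv_part, fun s hs S hS => hA s hs S hS, ⟨fun h s _ => ?_, fun h => ?_⟩⟩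
  · refine ⟨1, one_pos, fun ε hε M => ?_⟩
    obtain ⟨N, hN⟩ := exists_nat_ge (max (M : ℝ) (1 / ε ^ 2))
    have hN1 : (M : ℝ) ≤ N := (le_max_left _ _).trans hN
    have hN2 : 1 / ε ^ 2 ≤ N := (le_max_right _ _).trans hN
    refine ⟨N, by exact_mod_cast hN1, 1, le_rfl, ?_, {2}, ?_, by simp, fun _ => 0, fun q _ => ?_⟩
    · have h1 : 1 / ε ≤ √N := by
        apply Real.le_sqrt_of_sq_le
        rw [div_pow, one_pow]; exact hN2
      rw [div_le_iff₀ hε] at h1
      push_cast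
      linarith
    · intro q hq
      rw [mem_singleton] at hq
      rw [hq]; decide
    · have e : count s {x | Reaches x}ᶜ N q 0 = 0 := by
        unfold count
        have h0 : {n : ℕ | 1 ≤ n ∧ n ≤ N ∧ (n : ℤ) ≡ 0 [ZMOD q] ∧ s * n ∈ {x | Reaches x}ᶜ} = ∅ := by
          ext n
          simp only [Set.mem_ofPred_eq, Set.mem_empty_iff_false, iff_false]
          rintro ⟨-, -, -, h4⟩
          exact h4 (h _)
        rw [h0, Set.ncard_empty]
      rw [e]
      push_cast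
      positivity
  · exact hall fun s hs x hx => hA s hs _ reaches_inv (h s hs) x hx

end Pool.Agent.Results.MP_d02c56_nt.LevelOneHalf
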