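import Pool.Agent.T6.H47.BV13

set_option autoImplicit false

/-!
A theorem of Barban-Davenport-Halberstam type for the Collatz map.

Let `S` be a set invariant under the Collatz map and `δ` its density. The mean square of the
deviation of the number of elements `n ≤ N` of `S` in a residue class from `δ N / q`, over all
classes and all moduli `q` of a dyadic interval `(Q, 2 Q]`, is small in comparison to the trivial
bound as soon as `Q = o(N)`, unless `Q` is of the order of magnitude of the square root of `N`;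
the error is explicit and uniform in the set. So the question is equivalent to a statement on a
positive proportion of the pairs of a modulus and a class, for moduli up to `o(N)`.
-/

namespace Pool.Agent.Results.MP_d02c56_nt.MeanSquares

open Filter Topology Finset

/-- The Collatz map on the integers. -/
def C (x : ℤ) : ℤ := if x % 2 = 0 then x / 2 else 3 * x + 1

/-- `S` is invariant under the Collatz map and its inverse. -/
def Invariant (S : Set ℤ) : Prop := ∀ x : ℤ, x ∈ S ↔ C x ∈ S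

/-- Among the integers of sign `s` the set `S` has natural density `δ`. -/
def HasDensity (s : ℤ) (S : Set ℤ) (δ : ℝ) : Prop :=
  Tendsto (fun N : ℕ => ({n : ℤ | 0 < s * n ∧ s * n ≤ N ∧ n ∈ S}.ncard : ℝ) / N) atTop (𝓝 δ)

/-- The number of the `n ≡ a` mod `q` with `1 ≤ n ≤ N` and `s n ∈ S`. -/
noncomputable def count (s : ℤ) (S : Set ℤ) (N q : ℕ) (a : ℤ) : ℕ :=
  {n : ℕ | 1 ≤ n ∧ n ≤ N ∧ (n : ℤ) ≡ a [ZMOD q] ∧ s * n ∈ S}.ncard

/-- There are arbitrarily large `N` and intervals `(Q, 2 Q]` of moduli, with `Q ≤ ε √N` or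
`√N / ε ≤ Q ≤ ε N`, such that for at least `κ Q ^ 2` of the pairs of a modulus `q` of the interval
and a class modulo `q`, the class has at most `ε N / q` elements `n ≤ N` with `s n ∉ S`. -/
def DensePairs (s : ℤ) (S : Set ℤ) (κ ε : ℝ) : Prop :=
  ∀ M : ℕ, ∃ N : ℕ, M ≤ N ∧ ∃ Q : ℕ, 1 ≤ Q ∧ (Q : ℝ) ≤ ε * N ∧ ((Q : ℝ) ≤ ε * √N ∨ √N ≤ ε * Q) ∧
    κ * Q ^ 2 ≤ {p : ℕ × ℕ | Q < p.1 ∧ p.1 ≤ 2 * Q ∧ p.2 < p.1 ∧
      (count s Sᶜ N p.1 p.2 : ℝ) ≤ ε * (N / p.1)}.ncard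

/-- The union of the five known cycles. -/
def Known : Finset ℤ := {1, 4, 2, -1, -2, -5, -14, -7, -20, -10, -17, -50, -25, -74, -37, -110,
  -55, -164, -82, -41, -122, -61, -182, -91, -272, -136, -68, -34, 0}

/-- The trajectory of `x` reaches one of the five known cycles. -/
def Reaches (x : ℤ) : Prop := ∃ k : ℕ, C^[k] x ∈ Known

theorem known_closed : ∀ x ∈ Known, C x ∈ Known := by decide

theorem reaches_inv : Invariant {x | Reaches x} := by
  intro x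
  constructor
  · rintro ⟨k, hk⟩
    cases k with
    | zero => exact ⟨0, known_closed x hk⟩
    | succ k => exact ⟨k, by rw [Function.iterate_succ_apply] at hk; exact hk⟩
  · rintro ⟨k, hk⟩
    exact ⟨k + 1, by rw [Function.iterate_succ_apply]; exact hk⟩

open Pool.Agent.T6.H47.BV Pool.Agent.H499R2.ND Pool.Agent.H499R2.CO

theorem inv_of {S : Set ℤ} (hS : Invariant S) : Inv 1 S := by
  intro x
  have e : Td 1 x = C x ∨ Td 1 x = C (C x) := by
    unfold Td C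
    by_cases h : x % 2 = 0
    · left; simp [h]
    · right
      have h2 : (3 * x + 1) % 2 = 0 := by omega
      simp [h, h2]
  rcases e with h | h
  · rw [h]; exact hS x
  · rw [h]; exact (hS x).trans (hS (C x))

theorem modEq_iff (n a : ℤ) (q : ℕ) : n ≡ a [ZMOD q] ↔ (q : ℤ) ∣ n - a := by
  rw [Int.modEq_comm, Int.modEq_iff_dvd]

theorem count_eq (s : ℤ) (S : Set ℤ) (y q : ℕ) (a : ℤ) :
    (count s S y q a : ℝ) = ∑ n ∈ Icc 1 y, ind S (s * (n : ℕ)) * ci q a n := by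
  classical
  have h : {n : ℕ | 1 ≤ n ∧ n ≤ y ∧ (n : ℤ) ≡ a [ZMOD q] ∧ s * n ∈ S} =
      ((Icc 1 y).filter (fun n : ℕ => (n : ℤ) ≡ a [ZMOD q] ∧ s * n ∈ S) : Set ℕ) := by
    ext n
    rw [mem_coe, mem_filter, mem_Icc]
    simp only [Set.mem_ofPred_eq]
    tauto
  unfold count
  rw [h, Set.ncard_coe_finset, card_filter]
  push_cast
  apply sum_congr rfl
  intro n _
  unfold ind ci
  by_cases h1 : (q : ℤ) ∣ (n : ℤ) - a
  · by_cases h2 : s * (n : ℤ) ∈ S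
    · rw [if_pos ⟨(modEq_iff _ _ _).2 h1, h2⟩, if_pos h2, if_pos h1, mul_one]
    · rw [if_neg (fun h3 => h2 h3.2), if_neg h2, zero_mul]
  · rw [if_neg (fun h3 => h1 ((modEq_iff _ _ _).1 h3.1)), if_neg h1, mul_zero]

theorem diff_le {s : ℤ} {S : Set ℤ} {δ : ℝ} (hδ0 : 0 ≤ δ) (hδ1 : δ ≤ 1) {q : ℕ} (hq : 1 ≤ q) (a : ℤ) (y : ℕ) :
    |((count s S y q a : ℝ) - δ * (y / q)) - WW (fun n : ℕ => ind S (s * n) - δ) q a y| ≤ 1 := by
  have e : ((count s S y q a : ℝ) - δ * (y / q)) - WW (fun n : ℕ => ind S (s * n) - δ) q a y =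
      δ * (∑ n ∈ Icc 1 y, ci q a n - y / q) := by
    rw [count_eq]
    unfold WW
    have : ∑ n ∈ Icc 1 y, (ind S (s * (n : ℕ)) - δ) * ci q a n =
        ∑ n ∈ Icc 1 y, ind S (s * (n : ℕ)) * ci q a n - δ * ∑ n ∈ Icc 1 y, ci q a n := by
      rw [mul_sum, ← sum_sub_distrib]
      apply sum_congr rfl
      intro n _
      ring
    rw [this]
    ring
  rw [e, abs_mul, abs_of_nonneg hδ0]
  exact mul_le_one₀ hδ1 (abs_nonneg _) (ci_Icc hq a y)

theorem sq_le {s : ℤ} {S : Set ℤ} {δ : ℝ} (hδ0 : 0 ≤ δ) (hδ1 : δ ≤ 1) {q : ℕ} (hq : 1 ≤ q) (N : ℕ) :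
    ∑ a ∈ range q, ((count s S N q a : ℝ) - δ * (N / q)) ^ 2 ≤
      2 * ∑ a ∈ range q, WW (fun n : ℕ => ind S (s * n) - δ) q a N ^ 2 + 2 * q := by
  calc _ ≤ ∑ a ∈ range q, (2 * WW (fun n : ℕ => ind S (s * n) - δ) q a N ^ 2 + 2) := by
        apply sum_le_sum
        intro a _
        have h6 := diff_le (s := s) (S := S) hδ0 hδ1 hq a N
        have h7 : (((count s S N q a : ℝ) - δ * (N / q)) - WW (fun n : ℕ => ind S (s * n) - δ) q a N) ^ 2 ≤ 1 := by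
          rw [← sq_abs]
          exact pow_le_one₀ (abs_nonneg _) h6
        nlinarith [sq_nonneg (((count s S N q a : ℝ) - δ * (N / q)) - 2 * WW (fun n : ℕ => ind S (s * n) - δ) q a N)]
    _ = 2 * ∑ a ∈ range q, WW (fun n : ℕ => ind S (s * n) - δ) q a N ^ 2 + 2 * q := by
        rw [sum_add_distrib, ← mul_sum, sum_const, card_range, nsmul_eq_mul]
        ring

theorem mean_part : ∃ K : ℝ, ∀ s : ℤ, (s = 1 ∨ s = -1) → ∀ S : Set ℤ, Invariant S → ∃ δ : ℝ, HasDensity s S δ ∧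
    ∀ N : ℕ, 2 ≤ N → ∀ Q : ℕ, 1 ≤ Q → Q ≤ N →
    (∑ q ∈ Ioc Q (2 * Q), ∑ a ∈ range q, ((count s S N q a : ℝ) - δ * (N / q)) ^ 2 ≤
      K * (N ^ 2 / Real.log N ^ (1 / 31 : ℝ) + N ^ 2 * min (Q / √N) (√N / Q) + Q * N)) ∧
    (∑ q ∈ Icc 1 Q, ∑ a ∈ range q, ((count s S N q a : ℝ) - δ * (N / q)) ^ 2 ≤
      K * (N ^ 2 * Real.log N ^ (29 / 30 : ℝ) + Q * N)) := by
  obtain ⟨C₁, hC₁, h₁⟩ := bdh_dyadic
  obtain ⟨C₂, hC₂, h₂⟩ := bdh
  refine ⟨2 * C₁ + 2 * C₂ + 8, fun s hs S hS => ?_⟩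
  have hSi := inv_of hS
  obtain ⟨δ, hδ0, hδ1, hHD⟩ := dens_side odd_one isCoprime_one_left hs hSi
  refine ⟨δ, HD_ncard hs hHD, fun N hN Q hQ hQN => ?_⟩
  have hNr : (2 : ℝ) ≤ N := by exact_mod_cast hN
  have hQr : (1 : ℝ) ≤ Q := by exact_mod_cast hQ
  have hQNr : (Q : ℝ) ≤ N := by exact_mod_cast hQN
  have hL0 : 0 < Real.log N := Real.log_pos (by linarith)
  have hs0 : 0 < √(N : ℝ) := Real.sqrt_pos.2 (by linarith)
  have hQQ : (Q : ℝ) * Q ≤ Q * N := by nlinarith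
  have hQN0 : 0 ≤ (Q : ℝ) * N := by positivity
  constructor
  · have h4 := h₁ s hs S hSi δ hHD N hN Q hQ hQN
    have h5 : ∑ q ∈ Ioc Q (2 * Q), ∑ a ∈ range q, ((count s S N q a : ℝ) - δ * (N / q)) ^ 2 ≤
        2 * ∑ q ∈ Ioc Q (2 * Q), ∑ a ∈ range q, WW (fun n : ℕ => ind S (s * n) - δ) q a N ^ 2 + Q * (4 * Q) := by
      calc _ ≤ ∑ q ∈ Ioc Q (2 * Q), (2 * ∑ a ∈ range q, WW (fun n : ℕ => ind S (s * n) - δ) q a N ^ 2 + 4 * Q) := by
            apply sum_le_sum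
            intro q hq
            rw [mem_Ioc] at hq
            have h6 := sq_le (s := s) (S := S) hδ0 hδ1 (show 1 ≤ q by omega) N
            have h7 : (q : ℝ) ≤ 2 * Q := by exact_mod_cast hq.2
            linarith
        _ = _ := by
            rw [sum_add_distrib, ← mul_sum, sum_const, Nat.card_Ioc, show 2 * Q - Q = Q by omega, nsmul_eq_mul]
    refine h5.trans ?_
    have h7 : 0 ≤ (N : ℝ) ^ 2 * min (Q / √N) (√N / Q) := by
      apply mul_nonneg (sq_nonneg _)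
      apply le_min <;> positivity
    have h8 : 0 ≤ (N : ℝ) ^ 2 / Real.log N ^ (1 / 31 : ℝ) := by positivity
    generalize (N : ℝ) ^ 2 / Real.log N ^ (1 / 31 : ℝ) = X at *
    generalize (N : ℝ) ^ 2 * min (Q / √N) (√N / Q) = Y at *
    have h10 : 0 ≤ C₂ * (X + Y + Q * N) := by positivity
    have h11 : (2 * C₁ + 2 * C₂ + 8) * (X + Y + Q * N) = 2 * (C₁ * (X + Y + Q * N)) + 2 * (C₂ * (X + Y + Q * N)) +
      8 * X + 8 * Y + 8 * (Q * N) := by ring
    rw [h11]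
    linarith
  · have h4 := h₂ s hs S hSi δ hHD N hN Q hQN
    have h5 : ∑ q ∈ Icc 1 Q, ∑ a ∈ range q, ((count s S N q a : ℝ) - δ * (N / q)) ^ 2 ≤
        2 * ∑ q ∈ Icc 1 Q, ∑ a ∈ range q, WW (fun n : ℕ => ind S (s * n) - δ) q a N ^ 2 + Q * (2 * Q) := by
      calc _ ≤ ∑ q ∈ Icc 1 Q, (2 * ∑ a ∈ range q, WW (fun n : ℕ => ind S (s * n) - δ) q a N ^ 2 + 2 * Q) := by
            apply sum_le_sum
            intro q hq
            rw [mem_Icc] at hq
            have h6 := sq_le (s := s) (S := S) hδ0 hδ1 hq.1 N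
            have h7 : (q : ℝ) ≤ Q := by exact_mod_cast hq.2
            linarith
        _ = _ := by
            rw [sum_add_distrib, ← mul_sum, sum_const, Nat.card_Icc, nsmul_eq_mul]
            simp
    refine h5.trans ?_
    have h8 : 0 ≤ (N : ℝ) ^ 2 * Real.log N ^ (29 / 30 : ℝ) := by positivity
    generalize (N : ℝ) ^ 2 * Real.log N ^ (29 / 30 : ℝ) = X at *
    have h10 : 0 ≤ C₁ * (X + Q * N) := by positivity
    have h11 : (2 * C₁ + 2 * C₂ + 8) * (X + Q * N) = 2 * (C₁ * (X + Q * N)) + 2 * (C₂ * (X + Q * N)) +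
      8 * X + 8 * (Q * N) := by ring
    rw [h11]
    linarith

/-- **Mean squares over all classes** (1) for the moduli of a dyadic interval and for all moduli up to
`Q ≤ N`, uniformly in the invariant set; (2) a sufficient condition, and (3) the equivalence with
the question. -/
theorem result :
    (∃ K : ℝ, ∀ s : ℤ, (s = 1 ∨ s = -1) → ∀ S : Set ℤ, Invariant S → ∃ δ : ℝ, HasDensity s S δ ∧
      ∀ N : ℕ, 2 ≤ N → ∀ Q : ℕ, 1 ≤ Q → Q ≤ N →
      (∑ q ∈ Ioc Q (2 * Q), ∑ a ∈ range q, ((count s S N q a : ℝ) - δ * (N / q)) ^ 2 ≤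
        K * (N ^ 2 / Real.log N ^ (1 / 31 : ℝ) + N ^ 2 * min (Q / √N) (√N / Q) + Q * N)) ∧
      (∑ q ∈ Icc 1 Q, ∑ a ∈ range q, ((count s S N q a : ℝ) - δ * (N / q)) ^ 2 ≤
        K * (N ^ 2 * Real.log N ^ (29 / 30 : ℝ) + Q * N))) ∧
    (∀ s : ℤ, (s = 1 ∨ s = -1) → ∀ S : Set ℤ, Invariant S →
      (∃ κ : ℝ, 0 < κ ∧ ∀ ε : ℝ, 0 < ε → DensePairs s S κ ε) → ∀ x : ℤ, 0 < s * x → x ∈ S) ∧
    ((∀ x : ℤ, Reaches x) ↔ ∀ s : ℤ, (s = 1 ∨ s = -1) → ∃ κ : ℝ, 0 < κ ∧ ∀ ε : ℝ, 0 < ε →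
      DensePairs s {x | Reaches x} κ ε) := by
  classical
  have hfin : ∀ (s : ℤ) (S : Set ℤ) (ε : ℝ) (N Q : ℕ), {p : ℕ × ℕ | Q < p.1 ∧ p.1 ≤ 2 * Q ∧ p.2 < p.1 ∧
      (count s Sᶜ N p.1 p.2 : ℝ) ≤ ε * (N / p.1)}.Finite := by
    intro s S ε N Q
    apply (((Icc 1 (2 * Q)) ×ˢ (range (2 * Q))).finite_toSet).subset
    intro p hp
    obtain ⟨h1, h2, h3, -⟩ := hp
    rw [mem_coe, mem_product, mem_Icc, mem_range]
    omega
  have hA : ∀ s : ℤ, (s = 1 ∨ s = -1) → ∀ S : Set ℤ, Invariant S →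
      (∃ κ : ℝ, 0 < κ ∧ ∀ ε : ℝ, 0 < ε → DensePairs s S κ ε) → ∀ x : ℤ, 0 < s * x → x ∈ S := by
    intro s hs S hS ⟨κ, hκ, h⟩
    apply suff_pairs hs (inv_of hS) hκ
    intro ε hε M
    obtain ⟨N, hN, Q, hQ, hQN, hQs, hcard⟩ := h ε hε M
    refine ⟨N, hN, Q, hQ, hQN, hQs, (hfin s S ε N Q).toFinset, fun p hp => ?_, ?_, fun p hp => ?_⟩
    · rw [Set.Finite.mem_toFinset] at hp
      exact ⟨hp.1, hp.2.1, hp.2.2.1⟩
    · rw [Set.ncard_eq_toFinset_card _ (hfin s S ε N Q)] at hcard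
      exact hcard
    · rw [Set.Finite.mem_toFinset] at hp
      have h1 := hp.2.2.2
      rw [count_eq] at h1
      simp only [ind_compl] at h1
      exact h1
  have hall : (∀ s : ℤ, (s = 1 ∨ s = -1) → ∀ x : ℤ, 0 < s * x → Reaches x) → ∀ x : ℤ, Reaches x := by
    intro h x
    rcases lt_trichotomy x 0 with hx | hx | hx
    · exact h (-1) (Or.inr rfl) x (by omega)
    · rw [hx]; exact ⟨0, by decide⟩
    · exact h 1 (Or.inl rfl) x (by omega)
  refine ⟨mean_part, fun s hs S hS => hA s hs S hS, ⟨fun h s _ => ?_, fun h => ?_⟩⟩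
  · refine ⟨1, one_pos, fun ε hε M => ?_⟩
    obtain ⟨N, hN⟩ := exists_nat_ge (max (M : ℝ) (max (1 / ε ^ 2) (1 / ε)))
    have hN1 : (M : ℝ) ≤ N := (le_max_left _ _).trans hN
    have hN2 : 1 / ε ^ 2 ≤ N := (le_max_left _ _).trans ((le_max_right _ _).trans hN)
    have hN3 : 1 / ε ≤ N := (le_max_right _ _).trans ((le_max_right _ _).trans hN)
    refine ⟨N, by exact_mod_cast hN1, 1, le_rfl, ?_, Or.inl ?_, ?_⟩
    · rw [div_le_iff₀ hε] at hN3
      push_cast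
      linarith
    · have h1 : 1 / ε ≤ √N := by
        apply Real.le_sqrt_of_sq_le
        rw [div_pow, one_pow]; exact hN2
      rw [div_le_iff₀ hε] at h1
      push_cast
      linarith
    · have h1 : (2, 0) ∈ {p : ℕ × ℕ | 1 < p.1 ∧ p.1 ≤ 2 * 1 ∧ p.2 < p.1 ∧
          (count s {x | Reaches x}ᶜ N p.1 p.2 : ℝ) ≤ ε * (N / p.1)} := by
        refine ⟨by norm_num, by norm_num, by norm_num, ?_⟩
        have e : count s {x | Reaches x}ᶜ N 2 ((0 : ℕ) : ℤ) = 0 := by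
          unfold count
          have h0 : {n : ℕ | 1 ≤ n ∧ n ≤ N ∧ (n : ℤ) ≡ ((0 : ℕ) : ℤ) [ZMOD (2 : ℕ)] ∧ s * n ∈ {x | Reaches x}ᶜ} = ∅ := by
            ext n
            simp only [Set.mem_ofPred_eq, Set.mem_empty_iff_false, iff_false]
            rintro ⟨-, -, -, h4⟩
            exact h4 (h _)
          rw [h0, Set.ncard_empty]
        show (count s {x | Reaches x}ᶜ N 2 ((0 : ℕ) : ℤ) : ℝ) ≤ _
        rw [e]
        push_cast
        positivity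
      have h2 : 0 < {p : ℕ × ℕ | 1 < p.1 ∧ p.1 ≤ 2 * 1 ∧ p.2 < p.1 ∧
          (count s {x | Reaches x}ᶜ N p.1 p.2 : ℝ) ≤ ε * (N / p.1)}.ncard :=
        (Set.ncard_pos (hfin s _ ε N 1)).2 ⟨_, h1⟩
      have h3 : (1 : ℝ) ≤ {p : ℕ × ℕ | 1 < p.1 ∧ p.1 ≤ 2 * 1 ∧ p.2 < p.1 ∧
          (count s {x | Reaches x}ᶜ N p.1 p.2 : ℝ) ≤ ε * (N / p.1)}.ncard := by exact_mod_cast h2
      simpa using h3
  · exact hall fun s hs x hx => hA s hs _ reaches_inv (h s hs) x hx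

end Pool.Agent.Results.MP_d02c56_nt.MeanSquares
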